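import Pool.Agent.Lib_MP_79ab39_z.Surface0
import Pool.Agent.Lib_MP_79ab39_ag.Branch

/-! # The number of branch points of `s² = (U² + 3)/(U² + 2)` -/

open Complex PeriodPair Filter Topology

namespace MP79ab39

namespace Z

lemma exists_sq_factors (c : ℂ) : ∃ b : ℂ, ∀ x : ℂ, x ^ 2 - c = (x - b) * (x - -b) := by
  obtain ⟨b, hb⟩ := IsAlgClosed.exists_pow_nat_eq c (n := 2) (by norm_num)
  exact ⟨b, fun x => by linear_combination hb⟩

/-- the order of `U² - c` is the sum of the orders of `U - b`, `U + b` -/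
lemma branch_order_sq (m : ℕ) {c b : ℂ} (hb : ∀ x : ℂ, x ^ 2 - c = (x - b) * (x - -b)) (z : ℂ) :
    meromorphicOrderAt (fun w => Uf m w ^ 2 - c) z =
      meromorphicOrderAt (fun w => Uf m w - b) z +
        meromorphicOrderAt (fun w => Uf m w - -b) z := by
  have e : (fun w => Uf m w ^ 2 - c) = (fun w => Uf m w - b) * (fun w => Uf m w - -b) := by
    funext w
    simp only [Pi.mul_apply]
    exact hb _
  have h0 := branch_meromorphic m b z
  have h1 := branch_meromorphic m (-b) z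
  rw [e, meromorphicOrderAt_mul h0 h1]

lemma branch_order_rhoz (m : ℕ) (z : ℂ) :
    meromorphicOrderAt (rhoz m) z = meromorphicOrderAt (fun w => Uf m w ^ 2 - (-3)) z -
      meromorphicOrderAt (fun w => Uf m w ^ 2 - (-2)) z := by
  have hU := RBound.Uf_meromorphic m z
  have e : rhoz m = (fun w => Uf m w ^ 2 - (-3)) / (fun w => Uf m w ^ 2 - (-2)) := by
    funext w
    simp only [rhoz, Pi.div_apply, sub_neg_eq_add]
  rw [e, meromorphicOrderAt_div (by fun_prop) (by fun_prop)]

/-- at a point where `ρ` has odd order, `U` takes one of the four values `b` with `b² = -3`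
or `b² = -2` -/
lemma branch_value0 {m : ℕ} {b b' : ℂ}
    (hb : ∀ x : ℂ, x ^ 2 - (-3) = (x - b) * (x - -b))
    (hb' : ∀ x : ℂ, x ^ 2 - (-2) = (x - b') * (x - -b'))
    {z : ℂ} (hz : Odd (meromorphicOrderAt (rhoz m) z).untop₀) :
    ∃ c, (c = b ∨ c = -b ∨ c = b' ∨ c = -b') ∧
      meromorphicOrderAt (fun w => Uf m w - c) z ≠ 0 ∧
        0 ≤ meromorphicOrderAt (fun w => Uf m w - c) z := by
  rw [branch_order_rhoz, branch_order_sq m hb, branch_order_sq m hb'] at hz
  by_cases hp : meromorphicOrderAt (Uf m) z < 0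
  · exfalso
    simp only [branch_order_pole hp] at hz
    obtain ⟨k, hk⟩ := WithTop.ne_top_iff_exists.mp (ne_top_of_lt hp)
    rw [← hk] at hz
    have : ((k : WithTop ℤ) + k - (k + k)) = ((0 : ℤ) : WithTop ℤ) := by
      norm_cast
      simp
    rw [this, WithTop.untop₀_coe] at hz
    exact absurd hz (by decide)
  · push Not at hp
    by_contra hcon
    push Not at hcon
    have h1' : ∀ c, (c = b ∨ c = -b ∨ c = b' ∨ c = -b') →
        meromorphicOrderAt (fun w => Uf m w - c) z = 0 := by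
      intro c hc
      by_contra h
      exact absurd (branch_order_nonneg hp c) (not_le.mpr (hcon c hc h))
    rw [h1' b (Or.inl rfl), h1' (-b) (Or.inr (Or.inl rfl)),
      h1' b' (Or.inr (Or.inr (Or.inl rfl))), h1' (-b') (Or.inr (Or.inr (Or.inr rfl)))] at hz
    simp at hz

theorem branch_le0 {m : ℕ} (hm : Even m) (hm2 : 2 ≤ m) :
    branchNumber Lq (rhoz m) ≤ 4 * degree Lq (Uf m) := by
  obtain ⟨b, hb⟩ := exists_sq_factors (-3)
  obtain ⟨b', hb'⟩ := exists_sq_factors (-2)
  set S : ℂ → Set ℂ := fun c => {z | z ∈ parallelogram Lq ∧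
    (meromorphicOrderAt (fun w => Uf m w - c) z ≠ 0 ∧
      0 ≤ meromorphicOrderAt (fun w => Uf m w - c) z)} with hS
  have hfin : ∀ c, (S c).Finite := fun c => (branch_value_ncard hm hm2 c).1
  have hcard : ∀ c, (S c).ncard ≤ degree Lq (Uf m) := fun c => (branch_value_ncard hm hm2 c).2
  have hsub : {z | z ∈ parallelogram Lq ∧ Odd (meromorphicOrderAt (rhoz m) z).untop₀} ⊆
      (S b ∪ S (-b)) ∪ (S b' ∪ S (-b')) := by
    rintro z ⟨hz, hodd⟩
    obtain ⟨c, hc, hi⟩ := branch_value0 hb hb' hodd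
    rcases hc with rfl | rfl | rfl | rfl
    · exact Or.inl (Or.inl ⟨hz, hi⟩)
    · exact Or.inl (Or.inr ⟨hz, hi⟩)
    · exact Or.inr (Or.inl ⟨hz, hi⟩)
    · exact Or.inr (Or.inr ⟨hz, hi⟩)
  have hfinU : ((S b ∪ S (-b)) ∪ (S b' ∪ S (-b'))).Finite :=
    ((hfin _).union (hfin _)).union ((hfin _).union (hfin _))
  unfold branchNumber
  refine (Set.ncard_le_ncard hsub hfinU).trans ?_
  have h1 := Set.ncard_union_le (S b ∪ S (-b)) (S b' ∪ S (-b'))
  have h2 := Set.ncard_union_le (S b) (S (-b))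
  have h3 := Set.ncard_union_le (S b') (S (-b'))
  have c0 := hcard b
  have c1 := hcard (-b)
  have c2 := hcard b'
  have c3 := hcard (-b')
  omega

end Z

end MP79ab39
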