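import Pool.Agent.Lib_MP_79ab39_ag.DefsTwo
import Pool.Agent.Lib_MP_79ab39_ag.Smooth2

/-! The equations of the third surface in `(P¹)^5` (coordinates `u, y, x, w, v`), a blow-up of an
abelian surface, their multidegrees, and smoothness. -/

open MvPolynomial

namespace MP79ab39

namespace Z

/-- `y² (u² + 2) = u² + 3` -/
noncomputable def H0 : MvPolynomial (Coord 3) ℂ :=
  X (1, 0) ^ 2 * (X (0, 0) ^ 2 + 2 * X (0, 1) ^ 2) - X (1, 1) ^ 2 * (X (0, 0) ^ 2 + 3 * X (0, 1) ^ 2)

theorem H0_homogeneous : IsMultihomogeneous H0 ![2, 2, 0, 0, 0] := by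
  unfold H0
  have h2 : (2 : MvPolynomial (Coord 3) ℂ) = C 2 := by
    rw [map_ofNat]
  have h3 : (3 : MvPolynomial (Coord 3) ℂ) = C 3 := by
    rw [map_ofNat]
  apply mh_sub
  · refine mh_congr (mh_mul (mh_pow (mh_X 1 0) 2)
      (mh_add (mh_pow (mh_X 0 0) 2)
        (mh_congr (mh_mul (h2 ▸ mh_C (c := 3) 2) (mh_pow (mh_X 0 1) 2)) (zero_add _)))) ?_
    funext i
    fin_cases i <;> rfl
  · refine mh_congr (mh_mul (mh_pow (mh_X 1 1) 2)
      (mh_add (mh_pow (mh_X 0 0) 2)
        (mh_congr (mh_mul (h3 ▸ mh_C (c := 3) 3) (mh_pow (mh_X 0 1) 2)) (zero_add _)))) ?_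
    funext i
    fin_cases i <;> rfl

/-- the branch points of `y² = (u² + 3) / (u² + 2)` are not special for the last equation -/
lemma branch_ne {u0 u1 c : ℂ} (hu : u0 ≠ 0 ∨ u1 ≠ 0) (hc : c = 2 ∨ c = 3)
    (h : u0 ^ 2 + c * u1 ^ 2 = 0) :
    u0 ≠ 0 ∧ u1 ≠ 0 ∧ 2 * u0 ^ 6 + u1 ^ 6 ≠ 0 ∧ u0 * u1 * (u0 ^ 4 - u1 ^ 4) ≠ 0 := by
  have hc0 : c ≠ 0 := by rcases hc with rfl | rfl <;> norm_num
  have h1 : u1 ≠ 0 := by
    intro h1
    subst h1
    have : u0 ^ 2 = 0 := by linear_combination h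
    have h0 : u0 = 0 := pow_eq_zero_iff (by norm_num) |>.1 this
    simp [h0] at hu
  have h0 : u0 ≠ 0 := by
    intro h0
    subst h0
    have h2 : c * u1 ^ 2 = 0 := by linear_combination h
    exact mul_ne_zero hc0 (pow_ne_zero 2 h1) h2
  refine ⟨h0, h1, ?_, ?_⟩
  · intro hq
    have h2 : (1 - 2 * c ^ 3) * u1 ^ 6 = 0 := by
      linear_combination hq - 2 * (u0 ^ 4 - c * u0 ^ 2 * u1 ^ 2 + c ^ 2 * u1 ^ 4) * h
    refine mul_ne_zero ?_ (pow_ne_zero 6 h1) h2
    rcases hc with rfl | rfl <;> norm_num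
  · refine mul_ne_zero (mul_ne_zero h0 h1) ?_
    intro hp
    have h4 : (c ^ 2 - 1) * u1 ^ 4 = 0 := by
      linear_combination hp - (u0 ^ 2 - c * u1 ^ 2) * h
    refine mul_ne_zero ?_ (pow_ne_zero 4 h1) h4
    rcases hc with rfl | rfl <;> norm_num

theorem surface0_smooth (x : Coord 3 → ℂ) (hx : IsPoint x)
    (h : ∀ j, eval x ((![H0, G1, G2] : Fin 3 → MvPolynomial (Coord 3) ℂ) j) = 0) :
    LinearIndependent ℂ (fun (j : Fin 3) (p : Coord 3) =>
      eval x (pderiv p ((![H0, G1, G2] : Fin 3 → MvPolynomial (Coord 3) ℂ) j))) := by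
  rw [Fintype.linearIndependent_iff]
  intro g hg
  have key : ∀ p : Coord 3, g 0 * eval x (pderiv p H0) + g 1 * eval x (pderiv p G1) +
      g 2 * eval x (pderiv p G2) = 0 := by
    intro p
    have := congrFun hg p
    simpa [Fin.sum_univ_three] using this
  have k00 := key (0, 0)
  have k01 := key (0, 1)
  have ky0 := key (1, 0)
  have ky1 := key (1, 1)
  have k10 := key (2, 0)
  have k11 := key (2, 1)
  have k20 := key (3, 0)
  have k21 := key (3, 1)
  have k30 := key (4, 0)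
  have k31 := key (4, 1)
  have hu := hx 0
  have hy := hx 1
  have hX := hx 2
  have hw := hx 3
  have hv := hx 4
  clear key hg h hx
  have hp2 : ∀ p : Coord 3, pderiv p (2 : MvPolynomial (Coord 3) ℂ) = 0 := by
    intro p
    have h2 : (2 : MvPolynomial (Coord 3) ℂ) = C 2 := by rw [map_ofNat]
    rw [h2, pderiv_C]
  have hp3 : ∀ p : Coord 3, pderiv p (3 : MvPolynomial (Coord 3) ℂ) = 0 := by
    intro p
    have h2 : (3 : MvPolynomial (Coord 3) ℂ) = C 3 := by rw [map_ofNat]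
    rw [h2, pderiv_C]
  simp [H0, G1, G2, pderiv_X, hp2, hp3] at k00 k01 ky0 ky1 k10 k11 k20 k21 k30 k31
  generalize x (0, 0) = u0 at *
  generalize x (0, 1) = u1 at *
  generalize x (1, 0) = y0 at *
  generalize x (1, 1) = y1 at *
  generalize x (2, 0) = x0 at *
  generalize x (2, 1) = x1 at *
  generalize x (3, 0) = w0 at *
  generalize x (3, 1) = w1 at *
  generalize x (4, 0) = v0 at *
  generalize x (4, 1) = v1 at *
  have k30' : g 2 * ((2 * u0 ^ 6 + u1 ^ 6) * w1) = 0 := by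
    rcases k30 with h | h | h
    · rw [h]; ring
    · rw [h]; ring
    · rw [h]; ring
  have k31' : g 2 * (u0 * u1 * (u0 ^ 4 - u1 ^ 4) * w0) = 0 := by
    rcases k31 with h | h | (h | h) | h
    · rw [h]; ring
    · rw [h]; ring
    · rw [h]; ring
    · rw [h]; ring
    · rw [h]; ring
  have hg0 : g 0 = 0 := by
    by_contra hg0
    have ky0' := ky0.resolve_left hg0
    have ky1' := ky1.resolve_left hg0
    have hc : u0 ^ 2 + 2 * u1 ^ 2 = 0 ∧ y1 = 0 ∨ u0 ^ 2 + 3 * u1 ^ 2 = 0 ∧ y0 = 0 := by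
      rcases ky0' with h | h
      · rcases ky1' with h' | h'
        · exfalso
          have h1 : u1 ^ 2 = 0 := by linear_combination h' - h
          have h1' : u1 = 0 := pow_eq_zero_iff (by norm_num) |>.1 h1
          have h0 : u0 ^ 2 = 0 := by linear_combination h - 2 * h1
          have h0' : u0 = 0 := pow_eq_zero_iff (by norm_num) |>.1 h0
          simp [h0', h1'] at hu
        · exact Or.inl ⟨h, h'⟩
      · rcases ky1' with h' | h'
        · exact Or.inr ⟨h', h⟩
        · simp [h, h'] at hy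
    have hne : u0 ≠ 0 ∧ u1 ≠ 0 ∧ 2 * u0 ^ 6 + u1 ^ 6 ≠ 0 ∧ u0 * u1 * (u0 ^ 4 - u1 ^ 4) ≠ 0 := by
      rcases hc with h | h
      · exact branch_ne hu (Or.inl rfl) h.1
      · exact branch_ne hu (Or.inr rfl) h.1
    obtain ⟨hu0, hu1, hq, hp⟩ := hne
    have hg2 : g 2 = 0 := by
      by_contra hg2
      have h1 : w1 = 0 :=
        (mul_eq_zero.1 ((mul_eq_zero.1 k30').resolve_left hg2)).resolve_left hq
      have h0 : w0 = 0 :=
        (mul_eq_zero.1 ((mul_eq_zero.1 k31').resolve_left hg2)).resolve_left hp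
      simp [h0, h1] at hw
    rw [hg2] at k00
    have k00' : y0 ^ 2 - y1 ^ 2 = 0 := by
      apply mul_left_cancel₀ (mul_ne_zero hg0 hu0)
      linear_combination (1 / 2) * k00
    rcases hc with ⟨-, h⟩ | ⟨-, h⟩
    · subst h
      have : y0 ^ 2 = 0 := by linear_combination k00'
      have : y0 = 0 := pow_eq_zero_iff (by norm_num) |>.1 this
      simp [this] at hy
    · subst h
      have : y1 ^ 2 = 0 := by linear_combination (-1 : ℂ) * k00'
      have : y1 = 0 := pow_eq_zero_iff (by norm_num) |>.1 this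
      simp [this] at hy
  rw [hg0] at k00 k01
  have k10' : g 1 * (w0 ^ 2 * x1 - w1 ^ 2 * (2 * x0)) = 0 := by
    rcases k10 with h | h
    · rw [h]; ring
    · linear_combination g 1 * h
  have k11' : g 1 * (w0 ^ 2 * x0 + w1 ^ 2 * (2 * x1)) = 0 := by
    rcases k11 with h | h
    · rw [h]; ring
    · linear_combination g 1 * h
  have hfin := smooth_core (a := g 1) (b := g 2) hu hX hw hv
    (by linear_combination k00) (by linear_combination k01) k10' k11'
    (by linear_combination k20) (by linear_combination k21) k30' k31'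
  intro i
  fin_cases i
  · exact hg0
  · exact hfin.1
  · exact hfin.2

end Z

end MP79ab39
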