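import Pool.Agent.Lib_MP_79ab39_z.Connected0
import Pool.Agent.Lib_MP_79ab39_ag.Main

/-!
# The surface of Kodaira dimension zero, and the function defining the double covers
-/

open MvPolynomial

namespace MP79ab39

namespace Z

/-- The surface: `y² (u² + 2) = u² + 3`, `w² x = x² - 1`, `v (2 u⁶ + 1) = u (u⁴ - 1) w` in `(P¹)⁵`
with the coordinates `u, y, x, w, v`. -/
noncomputable def theSurface0 : CISurface 3 where
  F := ![H0, G1, G2]
  d := ![![2, 2, 0, 0, 0], ![0, 0, 2, 2, 0], ![6, 0, 0, 1, 1]]
  homogeneous := by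
    intro j
    fin_cases j
    · exact H0_homogeneous
    · exact G1_homogeneous
    · exact G2_homogeneous
  smooth := surface0_smooth
  connected := surface0_connected

lemma canonicalClass0 : theSurface0.canonicalClass = ![6, 0, 0, 1, -1] := by
  funext i
  fin_cases i <;> simp [CISurface.canonicalClass, theSurface0, Fin.sum_univ_succ]

/-- `ρ = (U² + 3)/(U² + 2)` -/
noncomputable def rhoz (m : ℕ) (z : ℂ) : ℂ := (Uf m z ^ 2 + 3) / (Uf m z ^ 2 + 2)

end Z

end MP79ab39
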