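import Pool.Agent.Lib_MP_79ab39_z.Branch0
import Pool.Agent.Lib_MP_79ab39_z.OddPoint0
import Pool.Agent.Lib_MP_79ab39_ag.Curve2

/-! The curves on the third surface and their canonical degrees. -/

open MvPolynomial Complex PeriodPair Filter Topology

namespace MP79ab39

namespace Z

lemma rhoz_meromorphic (m : ℕ) : Meromorphic (rhoz m) := by
  intro z
  have h := Uf_meromorphic m z
  exact ((h.pow 2).add (MeromorphicAt.const _ z)).div ((h.pow 2).add (MeromorphicAt.const _ z))

lemma rhoz_periodic (m : ℕ) {l : ℂ} (hl : l ∈ Lq.lattice) (z : ℂ) : rhoz m (z + l) = rhoz m z := by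
  unfold rhoz
  rw [Uf_periodic m hl z]

/-- `U² + b` vanishes at countably many points only -/
lemma countable_sq {m : ℕ} (hm : Even m) (hm2 : 2 ≤ m) (b : ℂ) :
    {z | Uf m z ^ 2 + b = 0}.Countable := by
  have hU := Uf_meromorphic m
  have h1 : Meromorphic (fun z => Uf m z ^ 2 + b) := fun z =>
    ((hU z).pow 2).add (MeromorphicAt.const _ z)
  refine countable_zeros h1 (z₀ := 1 / 2) ?_
  have ho := curveAux_order_Uf_half hm hm2
  rw [OddPoint0.order_sq_neg hU b (by norm_num : (-2 : ℤ) < 0) ho]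
  exact WithTop.coe_ne_top

noncomputable def theCurve0 {m : ℕ} (hm : Even m) (hm2 : 2 ≤ m) :
    DoubleTorusCurve theSurface0 where
  L := Lq
  ρ := rhoz m
  f := curveFun2 m
  t := ![0, 1, 0, 0, 0]
  meromorphic_ρ := rhoz_meromorphic m
  meromorphic := curveFun2_meromorphic
  periodic_ρ := fun _ hl z => rhoz_periodic m hl z
  periodic := fun i _ hl z => curveFun2_periodic i hl z
  odd := exists_odd0 hm hm2
  mem := by
    obtain ⟨D1, hD1, h1⟩ := curve_eq1 hm hm2
    obtain ⟨D2, hD2, h2⟩ := curve_eq2 hm hm2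
    refine ⟨D1 ∪ D2 ∪ {z | Uf m z ^ 2 + 2 = 0}, (hD1.union hD2).union (countable_sq hm hm2 2),
      fun z hz s hs j => ?_⟩
    simp only [Set.mem_union, not_or, Set.mem_ofPred_eq] at hz
    have e1 := h1 z hz.1.1
    have e2 := h2 z hz.1.2
    have e0 : s ^ 2 * (Uf m z ^ 2 + 2) = Uf m z ^ 2 + 3 := by
      rw [hs, rhoz, div_mul_cancel₀ _ hz.2]
    fin_cases j
    · simp [theSurface0, H0, curveFun2]
      linear_combination e0
    · simp [theSurface0, G1, curveFun2]
      linear_combination e1
    · simp [theSurface0, G2, curveFun2]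
      linear_combination e2
  birational := by
    obtain ⟨D, hD, h⟩ := curve_birational hm hm2
    refine ⟨D, hD, fun z hz z' hz' s s' _ _ heq => ⟨h z hz z' hz' ?_ ?_ ?_, ?_⟩⟩
    · simpa [curveFun2] using heq 0
    · simpa [curveFun2] using heq 2
    · simpa [curveFun2] using heq 3
    · simpa [curveFun2] using heq 1

theorem canonicalDegree0 {m : ℕ} (hm : Even m) (hm2 : 2 ≤ m) :
    12 * (degree Lq (Uf m) : ℤ) - 4 ≤ (theCurve0 hm hm2).canonicalDegree := by
  have h2 := degree_Vf_le hm hm2
  have e0 : (curveFun2 m 0) = Uf m := by funext z; simp [curveFun2]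
  have e3 : (curveFun2 m 3) = fun z => Wf (NN m * z) := by funext z; simp [curveFun2]
  have e4 : (curveFun2 m 4) = Vf m := by funext z; simp [curveFun2]
  have : (theCurve0 hm hm2).canonicalDegree =
      6 * (2 * (degree Lq (Uf m) : ℤ)) + (2 * (degree Lq (fun z => Wf (NN m * z)) : ℤ))
        - 2 * (degree Lq (Vf m) : ℤ) := by
    simp only [DoubleTorusCurve.canonicalDegree]
    rw [canonicalClass0, Fin.sum_univ_five]
    simp [theCurve0, e0, e3, e4]
    ring
  rw [this]
  zify at h2
  linarith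

end Z

end MP79ab39
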