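import Pool.Agent.Lib_MP_79ab39_ag.DefsTwo

/-! # Surfaces with an effective canonical divisor -/

open MvPolynomial

namespace MP79ab39

/-- The canonical divisor of the surface is effective, `h^0(X, K_X) ≥ 1`: the canonical bundle has
a holomorphic section which is not identically zero.  In particular the Kodaira dimension of `X` is
at least zero, and `X` is not uniruled. -/
def CISurface.CanonicalSection {c : ℕ} (X : CISurface c) : Prop :=
  ∃ s : (Coord c → ℂ) → ℂ, X.IsSection X.canonicalClass s ∧ ∃ x ∈ X.cone, s x ≠ 0

end MP79ab39
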