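import Pool.Agent.Lib_MP_79ab39_ag.Sections
import Pool.Agent.Lib_MP_79ab39_z.Surface0
import Pool.Agent.Lib_MP_79ab39_z.Defs0

/-!
# A canonical section of the third surface
-/

open MvPolynomial Topology

namespace MP79ab39

namespace Z

lemma cone0_iff (x : Coord 3 → ℂ) : x ∈ theSurface0.cone ↔ IsPoint x ∧
    (x (1, 0) ^ 2 * (x (0, 0) ^ 2 + 2 * x (0, 1) ^ 2) -
      x (1, 1) ^ 2 * (x (0, 0) ^ 2 + 3 * x (0, 1) ^ 2) = 0) ∧
    (x (3, 0) ^ 2 * x (2, 0) * x (2, 1) - x (3, 1) ^ 2 * (x (2, 0) ^ 2 - x (2, 1) ^ 2) = 0) ∧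
    (x (4, 0) * qq x * x (3, 1) - x (4, 1) * pp x * x (3, 0) = 0) := by
  simp only [CISurface.cone, theSurface0, Set.mem_ofPred_eq, Fin.forall_fin_succ, IsEmpty.forall_iff,
    Matrix.cons_val_zero, Matrix.cons_val_succ, and_true, H0, G1, G2, map_sub, map_mul, map_pow,
    map_add, eval_X, map_ofNat, qq, pp]

lemma sig_eq_of_ne0 {x : Coord 3 → ℂ} (hx : x ∈ theSurface0.cone) (h1 : x (4, 1) ≠ 0) :
    sig x = qq x * x (3, 1) / x (4, 1) := by
  unfold sig
  split_ifs with h0
  · rfl
  · have := ((cone0_iff x).1 hx).2.2.2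
    field_simp
    linear_combination -this

lemma isSection_sig0 : theSurface0.IsSection ![6, 0, 0, 1, -1] sig := by
  constructor
  · intro x hx t ht
    have h : (∏ i, t i ^ (![6, 0, 0, 1, -1] : Fin 5 → ℤ) i) = t 0 ^ 6 * t 3 * (t 4)⁻¹ := by
      simp [Fin.prod_univ_succ]
      ring_nf
    rw [h]
    have h4 := ht 4
    have e1 : qq (fun p => t p.1 * x p) = t 0 ^ 6 * qq x := by unfold qq; ring
    have e2 : pp (fun p => t p.1 * x p) = t 0 ^ 6 * pp x := by unfold pp; ring
    unfold sig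
    rw [e1, e2]
    by_cases h0 : x (4, 0) = 0
    · simp only [h0, mul_zero, if_true]
      by_cases h1 : x (4, 1) = 0
      · simp [h1]
      · field_simp
    · have : t 4 * x (4, 0) ≠ 0 := mul_ne_zero h4 h0
      simp only [h0, this, if_false]
      field_simp
  · intro x hx
    by_cases h0 : x (4, 0) = 0
    · have h1 : x (4, 1) ≠ 0 := by
        rcases ((cone0_iff x).1 hx).1 4 with h | h
        · exact absurd h0 h
        · exact h
      refine ⟨fun y => qq y * y (3, 1) / y (4, 1), ?_, ?_⟩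
      · exact ((analyticAt_qq x).mul (analyticAt_coord x _)).div (analyticAt_coord x _) h1
      · have hc : ∀ᶠ y in nhdsWithin x theSurface0.cone, y (4, 1) ≠ 0 :=
          nhdsWithin_le_nhds ((analyticAt_coord x (4, 1)).continuousAt.eventually_ne h1)
        filter_upwards [hc, self_mem_nhdsWithin] with y hy hy'
        rw [sig_eq_of_ne0 hy' hy]
    · refine ⟨fun y => pp y * y (3, 0) / y (4, 0), ?_, ?_⟩
      · exact ((analyticAt_pp x).mul (analyticAt_coord x _)).div (analyticAt_coord x _) h0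
      · have hc : ∀ᶠ y in nhdsWithin x theSurface0.cone, y (4, 0) ≠ 0 :=
          nhdsWithin_le_nhds ((analyticAt_coord x (4, 0)).continuousAt.eventually_ne h0)
        filter_upwards [hc] with y hy
        simp [sig, hy]

theorem canonicalSection : theSurface0.CanonicalSection := by
  refine ⟨sig, ?_, ?_⟩
  · rw [canonicalClass0]; exact isSection_sig0
  · let P : Fin 5 → Fin 2 → ℂ := ![![1, 0], ![1, 1], ![1, 1], ![0, 1], ![0, 1]]
    refine ⟨fun p : Coord 3 => P p.1 p.2, ?_, ?_⟩
    · rw [cone0_iff]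
      refine ⟨?_, ?_, ?_, ?_⟩
      · intro i; fin_cases i <;> simp [P]
      · simp [P]
      · simp [P]
      · simp [P, pp, qq]
    · simp [P, sig, qq]

end Z

end MP79ab39
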